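import Pool.Agent.helper23.CU.Spec

/-!
# BX4: convergence of the chain with plus boundary conditions
-/

open Finset Filter Topology

namespace CU

section BX4sec

variable {d n : ℕ} [NeZero n]

lemma BX4_lin (hL : LIN_stmt) (β : ℝ) (D : Finset (Site d n)) (f g : Conf d n → ℝ) (a b : ℝ) :
    PD β D (fun σ => a * f σ + b * g σ) = fun σ => a * PD β D f σ + b * PD β D g σ := by
  have h := (hL d n β f g a b 1).1
  simp only [Function.iterate_one] at h
  funext σ
  simp only [PD]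
  rw [h]

lemma BX4_mono (hL : LIN_stmt) (β : ℝ) (D : Finset (Site d n)) (f g : Conf d n → ℝ)
    (hfg : ∀ σ, f σ ≤ g σ) (σ : Conf d n) : PD β D f σ ≤ PD β D g σ := by
  have h := (hL d n β f g 0 0 1).2.1 hfg (ext D σ)
  simp only [Function.iterate_one] at h
  exact h

lemma BX4_const (hR : REV_stmt) (β : ℝ) (D : Finset (Site d n)) (c : ℝ) :
    PD β D (fun _ => c) = fun _ => c := by
  have h := (hR d n β (fun _ => 0) (fun _ => 0) 1).2 c
  simp only [Function.iterate_one] at h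
  funext σ
  simp only [PD]
  rw [h]

lemma BX4_lin_it (hL : LIN_stmt) (β : ℝ) (D : Finset (Site d n)) (a b : ℝ) (t : ℕ) :
    ∀ f g : Conf d n → ℝ, (PD β D)^[t] (fun σ => a * f σ + b * g σ) =
      fun σ => a * (PD β D)^[t] f σ + b * (PD β D)^[t] g σ := by
  induction t with
  | zero => intro f g; rfl
  | succ t ih =>
    intro f g
    rw [Function.iterate_succ_apply, BX4_lin hL, ih]
    simp only [Function.iterate_succ_apply]

lemma BX4_mono_it (hL : LIN_stmt) (β : ℝ) (D : Finset (Site d n)) (t : ℕ) :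
    ∀ f g : Conf d n → ℝ, (∀ σ, f σ ≤ g σ) → ∀ σ : Conf d n,
      (PD β D)^[t] f σ ≤ (PD β D)^[t] g σ := by
  induction t with
  | zero => intro f g h; exact h
  | succ t ih =>
    intro f g h σ
    rw [Function.iterate_succ_apply, Function.iterate_succ_apply]
    exact ih _ _ (BX4_mono hL β D f g h) σ

lemma BX4_const_it (hR : REV_stmt) (β : ℝ) (D : Finset (Site d n)) (c : ℝ) (t : ℕ) :
    (PD β D)^[t] (fun _ : Conf d n => c) = fun _ => c := by
  induction t with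
  | zero => rfl
  | succ t ih => rw [Function.iterate_succ_apply, BX4_const hR, ih]

lemma BX4_ext_it (h2 : BX2_stmt) (β : ℝ) (D : Finset (Site d n)) (t : ℕ) :
    ∀ f : Conf d n → ℝ, (∀ σ, f (ext D σ) = f σ) →
      (∀ σ, (PD β D)^[t] f (ext D σ) = (PD β D)^[t] f σ) ∧ ExD β D ((PD β D)^[t] f) = ExD β D f := by
  induction t with
  | zero => intro f h; exact ⟨h, rfl⟩
  | succ t ih =>
    intro f h
    obtain ⟨h1, h3⟩ := h2 d n β D f h
    obtain ⟨h4, h5⟩ := ih (PD β D f) h1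
    refine ⟨?_, ?_⟩
    · intro σ
      rw [Function.iterate_succ_apply]
      exact h4 σ
    · rw [Function.iterate_succ_apply, h5, h3]

lemma BX4_W_pos (β : ℝ) (σ : Conf d n) : 0 < W β σ := Real.exp_pos _

lemma BX4_Z_pos (β : ℝ) (D : Finset (Site d n)) : 0 < ∑ σ ∈ PlusOn D, W β σ := by
  refine Finset.sum_pos (fun σ _ => BX4_W_pos β σ) ?_
  refine ⟨plus, ?_⟩
  simp [PlusOn, plus]

lemma BX4_ExD_bd (β : ℝ) (D : Finset (Site d n)) (f : Conf d n → ℝ) (A B : ℝ)
    (hA : ∀ σ, A ≤ f σ) (hB : ∀ σ, f σ ≤ B) : A ≤ ExD β D f ∧ ExD β D f ≤ B := by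
  have hZ := BX4_Z_pos β D
  constructor
  · rw [ExD, le_div_iff₀ hZ, Finset.mul_sum]
    refine Finset.sum_le_sum ?_
    intro σ _
    rw [mul_comm]
    exact mul_le_mul_of_nonneg_left (hA σ) (BX4_W_pos β σ).le
  · rw [ExD, div_le_iff₀ hZ, Finset.mul_sum]
    refine Finset.sum_le_sum ?_
    intro σ _
    rw [mul_comm B]
    exact mul_le_mul_of_nonneg_left (hB σ) (BX4_W_pos β σ).le

/-- one block of steps contracts the interval -/
lemma BX4_block (h3 : BX3_stmt) (hL : LIN_stmt) (hR : REV_stmt) (β : ℝ) (hβ : 0 ≤ β)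
    (D : Finset (Site d n)) (f : Conf d n → ℝ) (hf : ∀ σ, f (ext D σ) = f σ) (A L : ℝ)
    (hA : ∀ σ, A ≤ f σ) (hB : ∀ σ, f σ ≤ A + L) :
    ∃ A' : ℝ, ∀ σ, A' ≤ (PD β D)^[D.card] f σ ∧ (PD β D)^[D.card] f σ ≤ A' +
      (1 - ((1 / (Fintype.card (Site d n) : ℝ)) * (1 / (1 + Real.exp (4 * d * β)))) ^ D.card) * L := by
  set ε : ℝ := ((1 / (Fintype.card (Site d n) : ℝ)) * (1 / (1 + Real.exp (4 * d * β)))) ^ D.card
    with hε
  refine ⟨A + ε * (f plus - A), ?_⟩
  intro σ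
  have e1 : (PD β D)^[D.card] (fun σ => 1 * f σ + (-1) * (fun _ : Conf d n => A) σ) =
      fun σ => 1 * (PD β D)^[D.card] f σ + (-1) * (PD β D)^[D.card] (fun _ => A) σ :=
    BX4_lin_it hL β D 1 (-1) D.card f (fun _ => A)
  have e2 : (PD β D)^[D.card] (fun σ => (-1) * f σ + 1 * (fun _ : Conf d n => A + L) σ) =
      fun σ => (-1) * (PD β D)^[D.card] f σ + 1 * (PD β D)^[D.card] (fun _ => A + L) σ :=
    BX4_lin_it hL β D (-1) 1 D.card f (fun _ => A + L)
  rw [BX4_const_it hR] at e1 e2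
  have k1 := h3 d n β hβ D (fun σ => 1 * f σ + (-1) * (fun _ : Conf d n => A) σ)
    (by intro σ; have := hA σ; simp only; linarith)
    (by intro σ; simp only [hf]) σ
  have k2 := h3 d n β hβ D (fun σ => (-1) * f σ + 1 * (fun _ : Conf d n => A + L) σ)
    (by intro σ; have := hB σ; simp only; linarith)
    (by intro σ; simp only [hf]) σ
  rw [e1] at k1
  rw [e2] at k2
  simp only [← hε] at k1 k2
  constructor
  · linarith
  · nlinarith

lemma BX4_blocks (h2 : BX2_stmt) (h3 : BX3_stmt) (hL : LIN_stmt) (hR : REV_stmt) (β : ℝ)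
    (hβ : 0 ≤ β) (D : Finset (Site d n)) (j : ℕ) : ∀ (f : Conf d n → ℝ),
    (∀ σ, f (ext D σ) = f σ) → ∀ (A L : ℝ),
    (∀ σ, A ≤ f σ) → (∀ σ, f σ ≤ A + L) →
    ∃ A' : ℝ, ∀ σ, A' ≤ ((PD β D)^[D.card])^[j] f σ ∧ ((PD β D)^[D.card])^[j] f σ ≤ A' +
      (1 - ((1 / (Fintype.card (Site d n) : ℝ)) * (1 / (1 + Real.exp (4 * d * β)))) ^ D.card) ^ j *
        L := by
  induction j with
  | zero =>
    intro f hf A L hA hB
    refine ⟨A, fun σ => ⟨hA σ, ?_⟩⟩
    have := hB σ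
    simpa using this
  | succ j ih =>
    intro f hf A L hA hB
    obtain ⟨A', hA'⟩ := BX4_block h3 hL hR β hβ D f hf A L hA hB
    obtain ⟨A'', hA''⟩ := ih ((PD β D)^[D.card] f) (BX4_ext_it h2 β D D.card f hf).1 A' _
      (fun σ => (hA' σ).1) (fun σ => (hA' σ).2)
    refine ⟨A'', fun σ => ?_⟩
    rw [Function.iterate_succ_apply, pow_succ, mul_assoc]
    exact hA'' σ

end BX4sec

theorem BX4 (h2 : BX2_stmt) (h3 : BX3_stmt) (hL : LIN_stmt) (hR : REV_stmt) : BX4_stmt := by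
  intro d n _ β hβ D f hf1 hf2 t σ
  set m := D.card with hm
  have ht : m * (t / m) + t % m = t := Nat.div_add_mod t m
  set q := t / m with hq
  set r := t % m with hr
  obtain ⟨g1, g2⟩ := BX4_ext_it h2 β D r f hf2
  have b1 : ∀ σ, -1 ≤ (PD β D)^[r] f σ := by
    intro σ
    have h := BX4_mono_it hL β D r (fun _ => -1) f (fun σ => (abs_le.mp (hf1 σ)).1) σ
    rw [BX4_const_it hR] at h
    exact h
  have b2 : ∀ σ, (PD β D)^[r] f σ ≤ -1 + 2 := by
    intro σ
    have h := BX4_mono_it hL β D r f (fun _ => 1) (fun σ => (abs_le.mp (hf1 σ)).2) σ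
    rw [BX4_const_it hR] at h
    linarith
  obtain ⟨A, hA⟩ := BX4_blocks h2 h3 hL hR β hβ D q ((PD β D)^[r] f) g1 (-1) 2 b1 b2
  have key : (PD β D)^[t] f = ((PD β D)^[D.card])^[q] ((PD β D)^[r] f) := by
    rw [← Function.iterate_mul, ← Function.iterate_add_apply, ← hm, ht]
  have hE : ExD β D ((PD β D)^[t] f) = ExD β D f := (BX4_ext_it h2 β D t f hf2).2
  rw [← hE, key]
  obtain ⟨c1, c2⟩ := BX4_ExD_bd β D (((PD β D)^[D.card])^[q] ((PD β D)^[r] f)) A _
    (fun σ => (hA σ).1) (fun σ => (hA σ).2)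
  obtain ⟨c3, c4⟩ := hA σ
  rw [← hm] at *
  rw [abs_le]
  constructor
  · linarith
  · linarith

end CU
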