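import Pool.Agent.helper23.CU.Spec

/-!
# ERG: convergence to equilibrium on the torus
-/

open Finset Filter Topology

namespace CU

theorem ERG (h4 : BX4_stmt) (hL : LIN_stmt) : ERG_stmt := by
  intro d n _ β hβ f σ
  have hext : ∀ σ : Conf d n, ext (univ : Finset (Site d n)) σ = σ := by
    intro σ; funext x; simp [ext]
  have hPD : PD β (univ : Finset (Site d n)) = (Pf β : (Conf d n → ℝ) → Conf d n → ℝ) := by
    funext f σ; simp [PD, hext]
  have hPl : PlusOn (univ : Finset (Site d n)) = (univ : Finset (Conf d n)) := by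
    ext σ; simp [PlusOn]
  have hEx : ∀ g : Conf d n → ℝ, ExD β (univ : Finset (Site d n)) g = Ex β g := by
    intro g; simp [ExD, Ex, hPl]
  set C : ℝ := 1 + ∑ η : Conf d n, |f η| with hC
  have hS : 0 ≤ ∑ η : Conf d n, |f η| := Finset.sum_nonneg fun _ _ => abs_nonneg _
  have hCpos : 0 < C := by linarith
  have hfC : ∀ η : Conf d n, |f η| ≤ C := by
    intro η
    have := Finset.single_le_sum (f := fun η : Conf d n => |f η|) (fun _ _ => abs_nonneg _)
      (Finset.mem_univ η)
    linarith
  set g : Conf d n → ℝ := fun η => (1 / C) * f η + 0 * f η with hg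
  have hg1 : ∀ η, |g η| ≤ 1 := by
    intro η
    have : g η = f η / C := by simp only [hg]; ring
    rw [this, abs_div, abs_of_pos hCpos, div_le_one hCpos]
    exact hfC η
  have hgt : ∀ t : ℕ, (Pf β)^[t] g σ = (1 / C) * (Pf β)^[t] f σ := by
    intro t
    have := congrFun (hL d n β f f (1 / C) 0 t).1 σ
    rw [← hg] at this
    rw [this]
    ring
  have hgE : Ex β g = (1 / C) * Ex β f := by
    have := (hL d n β f f (1 / C) 0 0).2.2.1
    rw [← hg] at this
    rw [this]
    ring
  have hN : 0 < Fintype.card (Site d n) := Fintype.card_pos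
  have hNr : (1 : ℝ) ≤ (Fintype.card (Site d n) : ℝ) := by exact_mod_cast hN
  set c : ℝ := (1 / (Fintype.card (Site d n) : ℝ)) * (1 / (1 + Real.exp (4 * d * β))) with hc
  have hexp : 0 < Real.exp (4 * d * β) := Real.exp_pos _
  have hc0 : 0 < c := by positivity
  have hc1 : c ≤ 1 := by
    have h1 : 1 / (Fintype.card (Site d n) : ℝ) ≤ 1 := by
      rw [div_le_one (by linarith)]; exact hNr
    have h2 : 1 / (1 + Real.exp (4 * d * β)) ≤ 1 := by
      rw [div_le_one (by linarith)]; linarith
    have h3 : 0 ≤ 1 / (1 + Real.exp (4 * d * β)) := by positivity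
    calc c ≤ 1 * 1 := mul_le_mul h1 h2 h3 zero_le_one
      _ = 1 := by norm_num
  set ε : ℝ := c ^ (univ : Finset (Site d n)).card with hε
  have hε0 : 0 < ε := pow_pos hc0 _
  have hε1 : ε ≤ 1 := pow_le_one₀ hc0.le hc1
  have hbd : ∀ t : ℕ, |(Pf β)^[t] g σ - Ex β g| ≤ 2 * (1 - ε) ^ (t / (univ : Finset (Site d n)).card) := by
    intro t
    have := h4 d n β hβ univ g hg1 (by intro σ; rw [hext]) t σ
    rw [hPD, hEx] at this
    exact this
  have hz : Tendsto (fun t : ℕ => 2 * (1 - ε) ^ (t / (univ : Finset (Site d n)).card)) atTop (𝓝 0) := by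
    have h1 : Tendsto (fun j : ℕ => (1 - ε) ^ j) atTop (𝓝 0) :=
      tendsto_pow_atTop_nhds_zero_of_lt_one (by linarith) (by linarith)
    have h2 : Tendsto (fun t : ℕ => t / (univ : Finset (Site d n)).card) atTop atTop := by
      apply Nat.tendsto_div_const_atTop
      rw [Finset.card_univ]
      exact hN.ne'
    have h3 := (h1.comp h2).const_mul 2
    simpa using h3
  have hT : Tendsto (fun t : ℕ => (Pf β)^[t] g σ) atTop (𝓝 (Ex β g)) := by
    rw [tendsto_iff_norm_sub_tendsto_zero]
    refine squeeze_zero (fun _ => norm_nonneg _) ?_ hz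
    intro t
    rw [Real.norm_eq_abs]
    exact hbd t
  have hF := hT.const_mul C
  have e1 : (fun t : ℕ => C * (Pf β)^[t] g σ) = fun t => (Pf β)^[t] f σ := by
    funext t
    rw [hgt]
    field_simp
  have e2 : C * Ex β g = Ex β f := by
    rw [hgE]
    field_simp
  rw [e1, e2] at hF
  exact hF

end CU
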